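import Mathlib

set_option autoImplicit false

namespace Pool.Agent.Results.MP_e8f8b0_gt.Conc

open Filter Set Topology

universe u

/-- The Hurewicz property. -/
def Hurewicz (Y : Type u) [TopologicalSpace Y] : Prop := ∀ 𝓤 : ℕ → Set (Set Y),
  (∀ n, (∀ U ∈ 𝓤 n, IsOpen U) ∧ ⋃₀ 𝓤 n = univ) → ∃ 𝓕 : ℕ → Set (Set Y),
    (∀ n, (𝓕 n).Finite ∧ 𝓕 n ⊆ 𝓤 n) ∧ ∀ y, ∀ᶠ n in atTop, y ∈ ⋃₀ 𝓕 n

/-- The bounding number. -/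
noncomputable def bnum : Cardinal :=
  sInf {c | ∃ F : Set (ℕ → ℕ), (¬ ∃ g : ℕ → ℕ, ∀ f ∈ F, ∀ᶠ n in atTop, f n ≤ g n) ∧
    Cardinal.mk F = c}

/-- `κ`-concentrated sets. -/
def Concentrated (κ : Cardinal) (X : Set (ℕ → Bool)) : Prop :=
  ∃ A ⊆ X, A.Countable ∧ κ ≤ Cardinal.mk X ∧
    ∀ U, IsOpen U → A ⊆ U → Cardinal.mk (X \ U : Set (ℕ → Bool)) < κ

theorem stage {X : Type} {Y : Type u} [TopologicalSpace X] [TopologicalSpace Y] (h : Hurewicz Y)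
    {𝓤 : ℕ → Set (Set (X × Y))} (hU : ∀ n, (∀ U ∈ 𝓤 n, IsOpen U) ∧ ⋃₀ 𝓤 n = univ)
    {S : Set X} (hS : S.Countable) : ∃ (O : ℕ → Set X) (V : ℕ → Set Y), (∀ m, IsOpen (O m)) ∧
      (∀ x ∈ S, ∀ᶠ m in atTop, x ∈ O m) ∧ (∀ y, ∀ᶠ m in atTop, y ∈ V m) ∧
        ∀ m, ∀ n ≤ m, ∃ 𝓕 ⊆ 𝓤 n, 𝓕.Finite ∧ O m ×ˢ V m ⊆ ⋃₀ 𝓕 := by
  obtain ⟨f, hf⟩ := countable_iff_exists_injOn.1 hS
  choose u u1 u2 using fun n p => ((hU n).2 ▸ mem_univ p : p ∈ ⋃₀ 𝓤 n)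
  obtain ⟨𝓖, a1, a2⟩ := h (fun m => {W | IsOpen W ∧ ∃ O, IsOpen O ∧ {x ∈ S | f x ≤ m} ⊆ O ∧
      ∀ n ≤ m, ∃ 𝓕 ⊆ 𝓤 n, 𝓕.Finite ∧ O ×ˢ W ⊆ ⋃₀ 𝓕}) fun m =>
    ⟨fun _ h => h.1, eq_univ_of_forall fun y => by
      have b1 : {x ∈ S | f x ≤ m}.Finite :=
        .of_injOn (t := Iic m) (fun _ h => h.2) (hf.mono fun _ h => h.1) (finite_Iic m)
      obtain ⟨O, W, c1, c2, c3, c4, c5⟩ := generalized_tube_lemma b1.isCompact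
        (isCompact_singleton (x := y))
        (n := ⋂ n ∈ Iic m, ⋃₀ (u n '' ({x ∈ S | f x ≤ m} ×ˢ {y})))
        ((finite_Iic m).isOpen_biInter fun n _ => isOpen_sUnion (by
          rintro _ ⟨p, -, rfl⟩
          exact (hU n).1 _ (u1 n p))) fun p hp => mem_iInter₂.2 fun n _ => ⟨_, ⟨p, hp, rfl⟩, u2 n p⟩
      refine ⟨W, ⟨c2, O, c1, c3, fun n hn => ⟨_, ?_, (b1.prod (finite_singleton y)).image (u n),
        c5.trans (biInter_subset_of_mem (s := Iic m) hn)⟩⟩, c4 rfl⟩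
      rintro _ ⟨p, -, rfl⟩
      exact u1 n p⟩
  choose! O o1 o2 𝓕 o3 o4 o5 using fun m W (hW : W ∈ 𝓖 m) => ((a1 m).2 hW).2
  refine ⟨fun m => ⋂ W ∈ 𝓖 m, O m W, fun m => ⋃₀ 𝓖 m, fun m => (a1 m).1.isOpen_biInter (o1 m),
    fun x hx => (eventually_ge_atTop (f x)).mono fun m hm => mem_iInter₂.2 fun W hW =>
      o2 m W hW ⟨hx, hm⟩, a2, fun m n hn => ⟨⋃ W ∈ 𝓖 m, 𝓕 m W n,
        iUnion₂_subset fun W hW => o3 m W hW n hn, (a1 m).1.biUnion fun W hW => o4 m W hW n hn, ?_⟩⟩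
  rintro p ⟨p1, W, hW, p2⟩
  obtain ⟨U, c1, c2⟩ := o5 m W hW n hn ⟨mem_iInter₂.1 p1 W hW, p2⟩
  exact ⟨U, mem_biUnion hW c1, c2⟩

theorem result (hCH : Cardinal.continuum.{0} = Cardinal.aleph 1) (X : Set (ℕ → Bool))
    (hX : Hurewicz X) (hc : Concentrated bnum X) (Y : Type u) [TopologicalSpace Y]
    (hY : Hurewicz Y) : Hurewicz (X × Y) := by
  intro 𝓤 hU
  have h0 : bnum ≤ Cardinal.aleph 1 := by
    refine le_trans (b := Cardinal.mk (univ : Set (ℕ → ℕ))) (csInf_le' ?_) (by simp [← hCH])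
    refine ⟨_, fun ⟨g, hg⟩ => ?_, rfl⟩
    obtain ⟨n, hn⟩ := (hg (fun n => g n + 1) trivial).exists
    omega
  obtain ⟨A, a1, a2, -, a3⟩ := hc
  obtain ⟨O, V, o1, o2, o3, o4⟩ := stage hY hU (a2.preimage (Subtype.val_injective (p := (· ∈ X))))
  have e1 : (⋃ n, {x : X | x ∉ ⋃ m ∈ Ici n, O m}).Countable := countable_iUnion fun n => by
    obtain ⟨U, u1, u2⟩ := isOpen_induced_iff.1 (isOpen_biUnion (s := Ici n) fun m _ => o1 m)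
    refine (((Cardinal.countable_iff_lt_aleph_one _).2 ((a3 U u1 fun x hx => ?_).trans_le
      h0)).preimage Subtype.val_injective).mono fun x hx => ?_
    · obtain ⟨m, c1, c2⟩ := ((o2 ⟨x, a1 hx⟩ hx).and (eventually_ge_atTop n)).exists
      exact (u2 ▸ mem_biUnion c2 c1 : (⟨x, a1 hx⟩ : X) ∈ Subtype.val ⁻¹' U)
    · exact ⟨x.2, fun e => hx (u2 ▸ e)⟩
  obtain ⟨O', V', p1, p2, p3, p4⟩ := stage hY hU e1
  let P : Bool → ℕ → Set X := fun b => bif b then O else O'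
  let R : Bool → ℕ → Set Y := fun b => bif b then V else V'
  obtain ⟨𝓗, b1, b2⟩ := hX (fun n => {W | ∃ b, ∃ m ≥ n, P b m = W}) fun n => ⟨by
      rintro _ ⟨b, m, -, rfl⟩
      cases b
      exacts [p1 m, o1 m], eq_univ_of_forall fun x => by
      by_cases c : x ∈ ⋃ m ∈ Ici n, O m
      · obtain ⟨m, c1, c2⟩ := mem_iUnion₂.1 c
        exact ⟨_, ⟨true, m, c1, rfl⟩, c2⟩
      · obtain ⟨m, c1, c2⟩ := ((p2 x (mem_iUnion.2 ⟨n, c⟩)).and (eventually_ge_atTop n)).exists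
        exact ⟨_, ⟨false, m, c2, rfl⟩, c1⟩⟩
  choose! β μ m1 m2 using fun n W (hW : W ∈ 𝓗 n) => (b1 n).2 hW
  have q : ∀ b m, ∀ n ≤ m, ∃ 𝓕 ⊆ 𝓤 n, 𝓕.Finite ∧ P b m ×ˢ R b m ⊆ ⋃₀ 𝓕 := fun b => by
    cases b
    exacts [p4, o4]
  choose! 𝓕 f1 f2 f3 using q
  refine ⟨fun n => ⋃ W ∈ 𝓗 n, 𝓕 (β n W) (μ n W) n, fun n => ⟨(b1 n).1.biUnion fun W hW =>
    f2 _ _ _ (m1 n W hW), iUnion₂_subset fun W hW => f1 _ _ _ (m1 n W hW)⟩, fun ⟨x, y⟩ => ?_⟩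
  obtain ⟨k, hk⟩ := eventually_atTop.1 ((o3 y).and (p3 y))
  refine ((b2 x).and (eventually_ge_atTop k)).mono fun n ⟨⟨W, c1, c2⟩, c3⟩ => ?_
  have c4 : y ∈ R (β n W) (μ n W) := by
    have c5 := hk _ (c3.trans (m1 n W c1))
    cases β n W
    exacts [c5.2, c5.1]
  obtain ⟨U, c5, c6⟩ := f3 _ _ _ (m1 n W c1) (⟨(m2 n W c1).symm ▸ c2, c4⟩ :
    (x, y) ∈ P (β n W) (μ n W) ×ˢ R (β n W) (μ n W))
  exact ⟨U, mem_biUnion c1 c5, c6⟩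

end Pool.Agent.Results.MP_e8f8b0_gt.Conc
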